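import Mathlib
import Pool.Agent.Helper48.WTree.Defs
import Pool.Agent.Helper48.WTree.Main

set_option autoImplicit false

namespace Pool.Agent.Results.MP_5c8d7a_al.FifthPowerNotCM

open Pool.Agent.Helper48.WTree

universe u

/-- **Main result.** There is an admissible weighted tree on eight vertices such that, over every
field, the fifth power of its weighted edge ideal is not Cohen-Macaulay. -/
theorem result :
    ∃ (V : Type) (_ : Fintype V) (G : SimpleGraph V) (ω : Sym2 V → ℕ),
      Fintype.card V = 8 ∧ Admissible G ω ∧
      ∀ (K : Type u) [Field K], ¬ IsCM (MvPolynomial V K ⧸ (edgeIdeal G ω K) ^ 5) :=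
  ⟨VV, inferInstance, exG, exω, by decide, ex_admissible, fun K _ => not_cm K⟩

end Pool.Agent.Results.MP_5c8d7a_al.FifthPowerNotCM
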